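import Pool.Agent.Y413.PM.Stm

/-!
Project PM (helper413), job PM-PRIV: private edges.
-/

set_option autoImplicit false

open Finset

namespace Y921.PM

open Y413.PM

theorem t_PRIV : Y413.PM.S_PRIV := by
  classical
  intro V _ _ E hE W Z A x hZW hAZ hM
  let D : V → Finset (Sym2 V) := fun v => E.filter fun e => hit Z e ∧ ¬ hit (Z.erase v) e
  -- the form of the elements of `D v`
  have hform : ∀ v, ∀ e ∈ D v, ∃ u, e = s(v, u) ∧ u ∉ Z := by
    intro v e he
    rw [mem_filter] at he
    obtain ⟨heE, h1, h2⟩ := he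
    revert heE h1 h2
    refine Sym2.ind (fun a b => ?_) e
    intro heE h1 h2
    have hab : a ≠ b := fun h => hE _ heE (by rw [h]; exact Sym2.mk_isDiag_iff.2 rfl)
    rw [hit_mk] at h1 h2
    push Not at h2
    rw [mem_erase, mem_erase] at h2
    rcases h1 with h | h
    · have h3 : a = v := by
        by_contra h4
        exact h2.1 ⟨h4, h⟩
      subst h3
      exact ⟨b, rfl, fun h5 => h2.2 ⟨hab.symm, h5⟩⟩
    · have h3 : b = v := by
        by_contra h4
        exact h2.2 ⟨h4, h⟩
      subst h3
      exact ⟨a, Sym2.eq_swap, fun h5 => h2.1 ⟨hab, h5⟩⟩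
  have hcard : ∀ v, M E (Z.erase v) + (D v).card = M E Z := by
    intro v
    unfold M
    have h1 : (E.filter fun e => hit (Z.erase v) e) ∪ D v = E.filter fun e => hit Z e := by
      ext e
      rw [mem_union, mem_filter, mem_filter, mem_filter]
      constructor
      · rintro (⟨h1, w, hw, hwe⟩ | ⟨h1, h2, -⟩)
        · exact ⟨h1, w, mem_of_mem_erase hw, hwe⟩
        · exact ⟨h1, h2⟩
      · rintro ⟨h1, h2⟩
        by_cases h3 : hit (Z.erase v) e
        · exact Or.inl ⟨h1, h3⟩
        · exact Or.inr ⟨h1, h2, h3⟩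
    have h2 : Disjoint (E.filter fun e => hit (Z.erase v) e) (D v) := by
      rw [disjoint_left]
      intro e he he'
      exact (mem_filter.1 he').2.2 (mem_filter.1 he).2
    rw [← card_union_of_disjoint h2, h1]
  let F : V → Finset (Sym2 V) := fun v => (D v).filter fun e => hit (W \ Z) e
  have hF : ∀ v ∈ A, x ≤ (F v).card := by
    intro v hv
    have h1 := hM v hv
    have h2 := hcard v
    have h3 : (D v).card ≤ (F v).card + (Wᶜ).card := by
      have h4 : D v ⊆ F v ∪ (Wᶜ).image (fun u => s(v, u)) := by
        intro e he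
        rw [mem_union]
        by_cases h5 : hit (W \ Z) e
        · exact Or.inl (mem_filter.2 ⟨he, h5⟩)
        · right
          obtain ⟨u, rfl, hu⟩ := hform v e he
          rw [hit_mk] at h5
          push Not at h5
          refine mem_image_of_mem _ ?_
          rw [mem_compl]
          intro huW
          exact h5.2 (mem_sdiff.2 ⟨huW, hu⟩)
      refine (card_le_card h4).trans ((card_union_le _ _).trans ?_)
      exact Nat.add_le_add_left card_image_le _
    omega
  have hdisj : (A : Set V).PairwiseDisjoint F := by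
    intro v hv w hw hvw
    change Disjoint (F v) (F w)
    rw [disjoint_left]
    intro e he he'
    obtain ⟨u, rfl, -⟩ := hform v e (mem_filter.1 he).1
    apply (mem_filter.1 (mem_filter.1 he').1).2.2
    rw [hit_mk]
    exact Or.inl (mem_erase.2 ⟨hvw, hAZ hv⟩)
  have h1 : A.card * x ≤ ∑ v ∈ A, (F v).card := by
    have := card_nsmul_le_sum A (fun v => (F v).card) x hF
    simpa using this
  rw [← card_biUnion hdisj] at h1
  refine h1.trans (card_le_card ?_)
  intro e he
  obtain ⟨v, -, hv⟩ := mem_biUnion.1 he
  have h2 := mem_filter.1 hv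
  have h3 := mem_filter.1 h2.1
  exact mem_filter.2 ⟨h3.1, h3.2.1, h2.2⟩

end Y921.PM
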